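import Mathlib

namespace Pool.Agent.Results.MP_362e7f_co.Q1

open Finset

/-- A hypergraph pair `(H, F)` (edge multisets) on the finite vertex set `V`. -/
structure Pair (α : Type) where
  V : Finset α
  H : Multiset (Finset α)
  F : Multiset (Finset α)

variable {α : Type} [DecidableEq α]

/-- The pair induced on `S`. -/
def Pair.ind (p : Pair α) (S : Finset α) : Pair α := ⟨S, p.H.filter (· ⊆ S), p.F.filter (· ⊆ S)⟩

/-- Hypotheses (*). -/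
def Hyp (P : Set (Pair α)) (h f f' : ℕ) (β : ℝ) : Prop :=
  0 < h ∧ 0 < f ∧ f ≤ f' ∧ β < h ∧ (f : ℝ) < h - β ∧
  (∀ p ∈ P, ∀ S ⊆ p.V, p.ind S ∈ P) ∧
  (∀ p ∈ P, (∀ e ∈ p.H, e ⊆ p.V ∧ #e ≤ h) ∧ (∀ e ∈ p.F, e ⊆ p.V ∧ f ≤ #e ∧ #e ≤ f') ∧
    ∀ e ∈ p.F, ∀ g ∈ p.H, ¬ e ⊆ g) ∧
  ∃ C : ℝ, ∀ p ∈ P, ∀ I ⊆ p.V, (p.ind I).F.card = 0 → (p.ind I).H.card ≤ C * (#p.V : ℝ) ^ β

def ex (t : ℕ) : Pair (ℕ × ℕ) :=
  ⟨range 4 ×ˢ range (t + 1),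
    (range t ×ˢ range t ×ˢ range t).1.map fun x => {(0, 0), (1, x.1), (2, x.2.1), (3, x.2.2)},
    (({1, 2, 3} : Finset ℕ) ×ˢ (range t).offDiag).1.map fun x => {(0, 0), (x.1, x.2.1), (x.1, x.2.2)}⟩

theorem result : ∃ (α : Type) (_ : DecidableEq α) (P : Set (Pair α)) (h f f' : ℕ) (β : ℝ), Hyp P h f f' β ∧
    ∀ k₀ c : ℝ, 0 < c → ∃ p ∈ P, ∃ k ≥ k₀, k * (#p.V : ℝ) ^ β ≤ p.H.card ∧
      p.F.card < c * k ^ (f / (h - β)) := by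
  refine ⟨ℕ × ℕ, inferInstance, {p | ((∀ e ∈ p.H, e ⊆ p.V ∧ #e ≤ 4) ∧ (∀ e ∈ p.F, e ⊆ p.V ∧ 3 ≤ #e ∧ #e ≤ 3) ∧
    ∀ e ∈ p.F, ∀ g ∈ p.H, ¬ e ⊆ g) ∧ ∀ I, (p.ind I).F.card = 0 → (p.ind I).H.card ≤ 1}, 4, 3, 3, 0,
    ⟨by norm_num, by norm_num, le_rfl, by norm_num, by norm_num, ?_, fun p h => h.1,
      1, fun p h I _ e => by simpa using h.2 I e⟩, fun k c c0 => ?_⟩
  · rintro p ⟨⟨a, b, c⟩, d⟩ S -
    simp only [Pair.ind, Set.mem_setOf_eq, Multiset.mem_filter, Multiset.filter_filter, ← subset_inter_iff] at *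
    exact ⟨⟨fun e h => ⟨h.2, (a e h.1).2⟩, fun e h => ⟨h.2, (b e h.1).2⟩, fun e h g k => c e h.1 g k.1⟩,
      fun I => d _⟩
  obtain ⟨s, hs⟩ := exists_nat_gt (max (3 / c) (max k 1))
  simp only [max_lt_iff, div_lt_iff₀ c0] at hs
  have s1 := hs.2.2
  refine ⟨ex (s ^ 4), ⟨⟨?_, ?_, ?_⟩, fun I h => ?_⟩, s ^ 12, hs.2.1.le.trans (le_self_pow₀ s1.le (by norm_num)),
    by simp [ex]; exact le_of_eq (by ring), ?_⟩
  · simp only [ex, Multiset.mem_map]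
    rintro _ ⟨x, h, rfl⟩
    exact ⟨by simp [insert_subset_iff] at h ⊢; omega, card_le_four⟩
  · simp only [ex, Multiset.mem_map]
    rintro _ ⟨⟨i, a, b⟩, h, rfl⟩
    have h : (i = 1 ∨ i = 2 ∨ i = 3) ∧ a < s ^ 4 ∧ b < s ^ 4 ∧ a ≠ b := by simp at h; omega
    refine ⟨by simp [insert_subset_iff]; omega, (card_eq_three.2 ⟨_, _, _, ?_, ?_, ?_, rfl⟩).ge, card_le_three⟩
    all_goals simp [Prod.ext_iff]; omega
  · simp only [ex, Multiset.mem_map]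
    rintro _ ⟨x, h, rfl⟩ _ ⟨y, -, rfl⟩
    simp [insert_subset_iff, Prod.ext_iff] at h ⊢
    omega
  · simp only [ex, Pair.ind, Multiset.filter_map, Multiset.card_map, ← filter_val, card_val, card_eq_zero,
      filter_eq_empty_iff] at h ⊢
    refine card_le_one.2 fun x a y b => by_contra fun n => ?_
    simp [insert_subset_iff, Prod.ext_iff] at a b n h
    grind
  · have e : ((s : ℝ) ^ 12) ^ (((3 : ℕ) : ℝ) / ((4 : ℕ) - 0)) = s ^ 9 := by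
      rw [← Real.rpow_natCast, ← Real.rpow_mul (by linarith), ← Real.rpow_natCast]; norm_num
    have : (ex (s ^ 4)).F.card ≤ 3 * s ^ 8 := by
      simp [ex, ← pow_add]; omega
    rw [e]
    calc _ ≤ (3 * s ^ 8 : ℝ) := by exact_mod_cast this
      _ < s * c * s ^ 8 := mul_lt_mul_of_pos_right hs.1 (by positivity)
      _ = _ := by ring

end Pool.Agent.Results.MP_362e7f_co.Q1
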